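import Pool.Agent.X49.WalkCheck

/-!
# MP_7875f2: the saturation number of even cycles in complete bipartite graphs

For `ℓ = 4` the proposed value is `n₁ + n₂ + 5`. We show that
`sat(K_{n₁,n₂}, C_8) ≤ n₁ + n₂ + 3` for all `n₁, n₂ ≥ 6`.
-/

namespace Pool.Agent.Results.MP_7875f2_co.EightCycles

open SimpleGraph Pool.Agent.X49

/-- `H` is an `F`-saturated spanning subgraph of `G`. -/
def SaturatedIn {V W : Type} (G : SimpleGraph V) (F : SimpleGraph W) (H : SimpleGraph V) : Prop :=
  H ≤ G ∧ ¬ F ⊑ H ∧ ∀ x y : V, G.Adj x y → ¬ H.Adj x y → F ⊑ H ⊔ edge x y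

/-- The saturation number `sat(G, F)`. -/
noncomputable def sat {V W : Type} (G : SimpleGraph V) (F : SimpleGraph W) : ℕ :=
  sInf {m | ∃ H : SimpleGraph V, SaturatedIn G F H ∧ H.edgeSet.ncard = m}

/-- The neighbourhoods in the basic graph with parts `0, ..., 5` and `6, ..., 11`, as bit masks. -/
def A : ℕ → ℕ
  | 0 => 2 ^ 7 + 2 ^ 8 + 2 ^ 11
  | 1 => 2 ^ 8 + 2 ^ 9
  | 2 => 2 ^ 7 + 2 ^ 8 + 2 ^ 9 + 2 ^ 10
  | 3 => 2 ^ 6 + 2 ^ 7 + 2 ^ 8
  | 4 => 2 ^ 8 + 2 ^ 10
  | 5 => 2 ^ 6
  | 6 => 2 ^ 3 + 2 ^ 5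
  | 7 => 2 ^ 0 + 2 ^ 2 + 2 ^ 3
  | 8 => 2 ^ 0 + 2 ^ 1 + 2 ^ 2 + 2 ^ 3 + 2 ^ 4
  | 9 => 2 ^ 1 + 2 ^ 2
  | 10 => 2 ^ 2 + 2 ^ 4
  | 11 => 2 ^ 0
  | _ => 0

theorem A_symm : ∀ x < 12, ∀ y < 12, (A x).testBit y = (A y).testBit x := by decide +kernel

theorem A_left : ∀ x < 6, ∀ y < 6, (A x).testBit y = false := by decide +kernel

theorem A_right : ∀ x < 6, ∀ y < 6, (A (6 + x)).testBit (6 + y) = false := by decide +kernel

theorem A_leaf5 : ∀ y < 12, (A 5).testBit y = true → y = 6 := by decide +kernel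

theorem A_leaf11 : ∀ y < 12, (A 11).testBit y = true → y = 0 := by decide +kernel

theorem A_free : ∀ x < 12, ∀ y < 12, (A x).testBit y = true →
    walk A 12 7 x (2 ^ x) y = false := by decide +kernel

theorem A_sat : ∀ x < 6, ∀ y < 6, (A x).testBit (6 + y) = false →
    walk A 12 7 x (2 ^ x) (6 + y) = true := by decide +kernel

variable {n₁ n₂ : ℕ}

/-- The vertex of the basic graph corresponding to a vertex; all vertices beyond the first five of
each part correspond to leaves. -/
def code : Fin n₁ ⊕ Fin n₂ → ℕ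
  | .inl i => min i.val 5
  | .inr j => 6 + min j.val 5

theorem code_lt (u : Fin n₁ ⊕ Fin n₂) : code u < 12 := by
  rcases u with i | j <;> simp only [code] <;> omega

/-- The saturated graph. -/
def gr (n₁ n₂ : ℕ) : SimpleGraph (Fin n₁ ⊕ Fin n₂) where
  Adj u v := (A (code u)).testBit (code v) = true
  symm := ⟨fun u v h => by rwa [A_symm _ (code_lt v) _ (code_lt u)]⟩
  loopless := ⟨by
    rintro (i | j) h
    · simp only [code] at h
      rw [A_left _ (by omega) _ (by omega)] at h
      simp at h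
    · simp only [code] at h
      rw [A_right _ (by omega) _ (by omega)] at h
      simp at h⟩

theorem gr_adj {u v : Fin n₁ ⊕ Fin n₂} :
    (gr n₁ n₂).Adj u v ↔ (A (code u)).testBit (code v) = true := Iff.rfl

theorem gr_le : gr n₁ n₂ ≤ completeBipartiteGraph (Fin n₁) (Fin n₂) := by
  rintro (i | i) (j | j) h
  · rw [gr_adj] at h
    simp only [code] at h
    rw [A_left _ (by omega) _ (by omega)] at h
    simp at h
  · simp
  · simp
  · rw [gr_adj] at h
    simp only [code] at h
    rw [A_right _ (by omega) _ (by omega)] at h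
    simp at h

theorem code_inj {u v : Fin n₁ ⊕ Fin n₂} (h : code u = code v) (h5 : code u ≠ 5)
    (h11 : code u ≠ 11) : u = v := by
  rcases u with i | i <;> rcases v with j | j <;> simp only [code] at h h5 h11
  · congr 1; apply Fin.ext; omega
  · omega
  · omega
  · congr 1; apply Fin.ext; omega

theorem gr_free : ¬ (cycleGraph 8) ⊑ gr n₁ n₂ := by
  rw [contained_iff (by norm_num)]
  rintro ⟨g, hg⟩
  have h2 : ∀ k, g k ≠ g (k + 2) := by
    intro k hk
    rw [hg.inj, show k + 2 - k = 2 by ring] at hk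
    have := Int.le_of_dvd (by norm_num) hk
    norm_num at this
  -- no vertex of the cycle is a leaf
  have h5 : ∀ k, code (g k) ≠ 5 := by
    intro k hk
    have h3 := hg.adj k
    have h4 := (hg.adj (k - 1)).symm
    rw [show k - 1 + 1 = k by ring] at h4
    rw [gr_adj, hk] at h3 h4
    have h3' := A_leaf5 _ (code_lt _) h3
    have h4' := A_leaf5 _ (code_lt _) h4
    apply h2 (k - 1)
    rw [show k - 1 + 2 = k + 1 by ring]
    exact code_inj (h4'.trans h3'.symm) (by omega) (by omega)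
  have h11 : ∀ k, code (g k) ≠ 11 := by
    intro k hk
    have h3 := hg.adj k
    have h4 := (hg.adj (k - 1)).symm
    rw [show k - 1 + 1 = k by ring] at h4
    rw [gr_adj, hk] at h3 h4
    have h3' := A_leaf11 _ (code_lt _) h3
    have h4' := A_leaf11 _ (code_lt _) h4
    apply h2 (k - 1)
    rw [show k - 1 + 2 = k + 1 by ring]
    exact code_inj (h4'.trans h3'.symm) (by omega) (by omega)
  have hinj : ∀ i j : ℕ, i ≤ 7 → j ≤ 7 → code (g i) = code (g j) → i = j := by
    intro i j hi hj h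
    have h3 := code_inj h (h5 _) (h11 _)
    rw [hg.inj] at h3
    obtain ⟨c, hc⟩ := h3
    push_cast at hc
    omega
  have h7 := A_free (code (g 0)) (code_lt _) (code (g 7)) (code_lt _) (by
    rw [A_symm _ (code_lt _) _ (code_lt _)]
    have h3 := hg.adj 7
    rw [gr_adj] at h3
    have h4 : g (7 + 1) = g 0 := by
      rw [hg.inj]
      norm_num
    rwa [h4] at h3)
  have h8 := walk_of_path (A := A) (N := 12) 7 (code (g 0)) (2 ^ code (g 0)) (code (g 7))
    (fun i => code (g i)) rfl rfl (fun i _ => by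
      have := hg.adj i
      rw [gr_adj] at this
      push_cast
      exact this) (fun i hi1 hi2 => ⟨by
      rw [Nat.testBit_two_pow, decide_eq_false_iff_not]
      intro h
      have := hinj 0 i (by omega) hi2 (by exact_mod_cast h)
      omega, code_lt _⟩) (fun i j _ hi2 _ hj2 h => hinj i j hi2 hj2 h)
  rw [h7] at h8
  simp at h8

/-- The vertex with a given code. -/
def lift (h₁ : 6 ≤ n₁) (h₂ : 6 ≤ n₂) (c : ℕ) : Fin n₁ ⊕ Fin n₂ :=
  if h : c < 6 then .inl ⟨c, by omega⟩ else .inr ⟨(c - 6) % 6, by omega⟩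

theorem code_lift (h₁ : 6 ≤ n₁) (h₂ : 6 ≤ n₂) {c : ℕ} (hc : c < 12) :
    code (lift h₁ h₂ c) = c := by
  unfold lift
  split_ifs with h
  · simp only [code]; omega
  · simp only [code]; omega

theorem gr_sat (h₁ : 6 ≤ n₁) (h₂ : 6 ≤ n₂) (i : Fin n₁) (j : Fin n₂)
    (h : ¬ (gr n₁ n₂).Adj (.inl i) (.inr j)) :
    (cycleGraph 8) ⊑ gr n₁ n₂ ⊔ edge (.inl i) (.inr j) := by
  rw [gr_adj] at h
  simp only [code, Bool.not_eq_true] at h
  have h3 := A_sat _ (by omega) _ (by omega) h
  obtain ⟨p, p0, p7, padj, pvis, pinj⟩ := path_of_walk 7 _ _ _ (by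
    rw [Nat.testBit_two_pow]; simp) h3
  have hlt : ∀ k ≤ 7, p k < 12 := by
    intro k hk
    rcases Nat.eq_zero_or_pos k with h | h
    · subst h; rw [p0]; omega
    · exact (pvis k h hk).2
  -- the lifted path
  let q : ℕ → Fin n₁ ⊕ Fin n₂ := fun k =>
    if k = 0 then .inl i else if k = 7 then .inr j else lift h₁ h₂ (p k)
  have hq : ∀ k ≤ 7, code (q k) = p k := by
    intro k hk
    simp only [q]
    split_ifs with h5 h6
    · subst h5; rw [p0]; rfl
    · subst h6; rw [p7]; rfl
    · exact code_lift h₁ h₂ (hlt k hk)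
  refine contained_of_path (l := 7) q ?_ ?_ ?_
  · intro k hk
    left
    rw [gr_adj, hq k (by omega), hq (k + 1) (by omega)]
    exact padj k hk
  · intro k hk k' hk' h5
    apply pinj k k' hk hk'
    rw [← hq k hk, ← hq k' hk', h5]
  · right
    rw [edge_adj]
    simp [q]

theorem gr_saturated (h₁ : 6 ≤ n₁) (h₂ : 6 ≤ n₂) :
    SaturatedIn (completeBipartiteGraph (Fin n₁) (Fin n₂)) (cycleGraph 8) (gr n₁ n₂) := by
  refine ⟨gr_le, gr_free, ?_⟩
  rintro (i | i) (j | j) h1 h2
  · simp at h1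
  · exact gr_sat h₁ h₂ i j h2
  · rw [edge_comm]
    exact gr_sat h₁ h₂ j i (fun h => h2 h.symm)
  · simp at h1

/-- The pairs of the basic graph away from the leaves. -/
def core : Finset (ℕ × ℕ) :=
  (Finset.range 5 ×ˢ Finset.range 5).filter fun p => (A p.1).testBit (6 + p.2) = true

theorem card_core : core.card = 13 := by decide +kernel

theorem gr_edges (h₁ : 6 ≤ n₁) (h₂ : 6 ≤ n₂) : (gr n₁ n₂).edgeSet.ncard ≤ n₁ + n₂ + 3 := by
  classical
  let E1 : Finset (Sym2 (Fin n₁ ⊕ Fin n₂)) :=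
    core.image fun p => s(lift h₁ h₂ p.1, lift h₁ h₂ (6 + p.2))
  let E2 : Finset (Sym2 (Fin n₁ ⊕ Fin n₂)) :=
    (Finset.range (n₁ - 5)).image fun k =>
      s(if h : k + 5 < n₁ then .inl ⟨k + 5, h⟩ else .inl ⟨0, by omega⟩, .inr ⟨0, by omega⟩)
  let E3 : Finset (Sym2 (Fin n₁ ⊕ Fin n₂)) :=
    (Finset.range (n₂ - 5)).image fun k =>
      s(.inl ⟨0, by omega⟩, if h : k + 5 < n₂ then .inr ⟨k + 5, h⟩ else .inr ⟨0, by omega⟩)
  have hsub : (gr n₁ n₂).edgeSet ⊆ ((E1 ∪ E2 ∪ E3 : Finset _) : Set (Sym2 (Fin n₁ ⊕ Fin n₂))) := by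
    have key : ∀ (i : Fin n₁) (j : Fin n₂), (gr n₁ n₂).Adj (.inl i) (.inr j) →
        s(.inl i, .inr j) ∈ (E1 ∪ E2 ∪ E3 : Finset (Sym2 (Fin n₁ ⊕ Fin n₂))) := by
      intro i j h
      rw [gr_adj] at h
      simp only [code] at h
      rw [Finset.mem_union, Finset.mem_union]
      by_cases hi : i.val < 5
      · by_cases hj : j.val < 5
        · left; left
          rw [Finset.mem_image]
          refine ⟨(i.val, j.val), ?_, ?_⟩
          · rw [show min i.val 5 = i.val by omega, show min j.val 5 = j.val by omega] at h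
            simp only [core, Finset.mem_filter, Finset.mem_product, Finset.mem_range]
            exact ⟨⟨hi, hj⟩, h⟩
          · have e1 : lift h₁ h₂ i.val = .inl i := by
              unfold lift
              rw [dif_pos (by omega)]
            have e2 : lift h₁ h₂ (6 + j.val) = .inr j := by
              unfold lift
              rw [dif_neg (by omega)]
              congr 1
              apply Fin.ext
              simp only
              omega
            rw [e1, e2]
        · right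
          rw [show min j.val 5 = 5 by omega, A_symm _ (by omega) _ (by omega)] at h
          have h5 := A_leaf11 _ (by omega) h
          rw [Finset.mem_image]
          refine ⟨j.val - 5, Finset.mem_range.mpr (by omega), ?_⟩
          rw [dif_pos (show j.val - 5 + 5 < n₂ by omega)]
          have e1 : (⟨0, by omega⟩ : Fin n₁) = i := by
            apply Fin.ext
            simp only
            omega
          have e2 : (⟨j.val - 5 + 5, by omega⟩ : Fin n₂) = j := by
            apply Fin.ext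
            simp only
            omega
          rw [e1, e2]
      · left; right
        rw [show min i.val 5 = 5 by omega] at h
        have h5 := A_leaf5 _ (by omega) h
        rw [Finset.mem_image]
        refine ⟨i.val - 5, Finset.mem_range.mpr (by omega), ?_⟩
        rw [dif_pos (show i.val - 5 + 5 < n₁ by omega)]
        have e1 : (⟨i.val - 5 + 5, by omega⟩ : Fin n₁) = i := by
          apply Fin.ext
          simp only
          omega
        have e2 : (⟨0, by omega⟩ : Fin n₂) = j := by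
          apply Fin.ext
          simp only
          omega
        rw [e1, e2]
    intro e he
    induction e using Sym2.ind with
    | _ u v =>
      rw [mem_edgeSet] at he
      have h := gr_le he
      rcases u with i | i <;> rcases v with j | j
      · simp at h
      · exact key i j he
      · rw [Sym2.eq_swap]
        exact key j i he.symm
      · simp at h
  refine (Set.ncard_le_ncard hsub (Finset.finite_toSet _)).trans ?_
  rw [Set.ncard_coe_finset]
  refine (Finset.card_union_le _ _).trans ?_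
  have c1 : E1.card ≤ 13 := by rw [← card_core]; exact Finset.card_image_le
  have c2 : E2.card ≤ n₁ - 5 := by
    refine Finset.card_image_le.trans ?_
    rw [Finset.card_range]
  have c3 : E3.card ≤ n₂ - 5 := by
    refine Finset.card_image_le.trans ?_
    rw [Finset.card_range]
  have c4 := Finset.card_union_le E1 E2
  omega

/-- **Negative answer to Q1.** We have `sat(K_{n₁,n₂}, C_8) ≤ n₁ + n₂ + 3` for all `n₁, n₂ ≥ 6`,
whereas the proposed value for `ℓ = 4` is `n₁ + n₂ + 5`. -/
theorem result :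
    (∀ n₁ n₂ : ℕ, 6 ≤ n₁ → 6 ≤ n₂ →
      sat (completeBipartiteGraph (Fin n₁) (Fin n₂)) (cycleGraph 8) ≤ n₁ + n₂ + 3) ∧
    ¬ ∀ ℓ n₁ n₂ : ℕ, 4 ≤ ℓ → ℓ + 2 ≤ n₁ → ℓ + 2 ≤ n₂ →
      (sat (completeBipartiteGraph (Fin n₁) (Fin n₂)) (cycleGraph (2 * ℓ)) : ℤ) =
        n₁ + n₂ + ℓ ^ 2 - 3 * ℓ + 1 := by
  have h1 : ∀ n₁ n₂ : ℕ, 6 ≤ n₁ → 6 ≤ n₂ →
      sat (completeBipartiteGraph (Fin n₁) (Fin n₂)) (cycleGraph 8) ≤ n₁ + n₂ + 3 :=
    fun n₁ n₂ h₁ h₂ => le_trans (Nat.sInf_le ⟨gr n₁ n₂, gr_saturated h₁ h₂, rfl⟩)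
      (gr_edges h₁ h₂)
  refine ⟨h1, fun h => ?_⟩
  have h2 := h 4 6 6 le_rfl le_rfl le_rfl
  have h3 := h1 6 6 le_rfl le_rfl
  rw [show 2 * 4 = 8 by norm_num] at h2
  push_cast at h2
  omega

end Pool.Agent.Results.MP_7875f2_co.EightCycles
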